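import Mathlib

open MeasureTheory Filter Set
open scoped Pointwise ENNReal Topology

namespace Pool.Agent.Results.MP_5d7a45_an.Uniform

/-- `T φ C n = C + φ C + ⋯ + φ^(n-1) C`. -/
def T {G : Type*} [AddCommGroup G] (φ : G →+ G) (C : Set G) (n : ℕ) : Set G :=
  ∑ i ∈ Finset.range n, (⇑φ)^[i] '' C

/-- `H_A(φ, C) = limsup log μ(T_n(φ, C)) / n`. -/
noncomputable def H {G : Type*} [AddCommGroup G] [MeasurableSpace G] (μ : Measure G) (φ : G →+ G) (C : Set G) :
    EReal :=
  limsup (fun n : ℕ => ENNReal.log (μ (T φ C n)) / (n : EReal)) atTop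

/-- The algebraic entropy: supremum of `H_A(φ, C)` over compact neighbourhoods `C` of `0`. -/
noncomputable def hA {G : Type*} [AddCommGroup G] [TopologicalSpace G] [MeasurableSpace G] (μ : Measure G)
    (φ : G →+ G) : EReal :=
  ⨆ (C : Set G) (_ : IsCompact C ∧ C ∈ 𝓝 (0 : G)), H μ φ C

/-- The restriction of `φ` to an invariant subgroup. -/
def restr {G : Type*} [AddCommGroup G] (φ : G →+ G) (K : AddSubgroup G) (h : ∀ x ∈ K, φ x ∈ K) : K →+ K :=
  (φ.comp K.subtype).codRestrict K fun x => h x x.2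

section algebra

variable {G G' : Type*} [AddCommGroup G] [AddCommGroup G']

lemma T_zero (φ : G →+ G) (C : Set G) : T φ C 0 = {0} := by simp [T]; rfl

lemma T_succ (φ : G →+ G) (C : Set G) (n : ℕ) : T φ C (n + 1) = C + φ '' T φ C n := by
  have : ∀ n, φ '' T φ C n = ∑ i ∈ Finset.range n, (⇑φ)^[i + 1] '' C := by
    intro n
    induction n with
    | zero => simp [T]; rfl
    | succ n ih =>
      unfold T at ih ⊢
      rw [Finset.sum_range_succ, Finset.sum_range_succ, Set.image_add, ih, Function.iterate_succ', Set.image_comp]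
  rw [this]
  unfold T
  rw [Finset.sum_range_succ', add_comm]
  simp

lemma T_mono (φ : G →+ G) {C D : Set G} (h : C ⊆ D) (n : ℕ) : T φ C n ⊆ T φ D n := by
  induction n with
  | zero => rw [T_zero, T_zero]
  | succ n ih => rw [T_succ, T_succ]; exact Set.add_subset_add h (Set.image_mono ih)

lemma T_add (φ : G →+ G) (C : Set G) {V : Set G} (hV : (0 : G) ∈ V) (n : ℕ) :
    T φ C (n + 1) + V ⊆ T φ (C + V) (n + 1) := by
  rw [T_succ, T_succ, add_right_comm]
  exact Set.add_subset_add subset_rfl (Set.image_mono (T_mono φ (Set.subset_add_left _ hV) n))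

lemma T_image (φ : G →+ G) (ψ : G' →+ G') (ι : G →+ G') (h : ∀ x, ι (φ x) = ψ (ι x)) (C : Set G) (n : ℕ) :
    ι '' T φ C n = T ψ (ι '' C) n := by
  induction n with
  | zero => simp [T_zero]
  | succ n ih =>
    rw [T_succ, T_succ, Set.image_add, ← ih, Set.image_image, Set.image_image]
    simp only [h]

lemma T_cover (φ : G →+ G) {C F : Set G} (h0 : (0 : G) ∈ C) (h : C + φ '' C ⊆ F + C) (n : ℕ) :
    T φ C n ⊆ T φ F n + C := by
  induction n with
  | zero => rw [T_zero, T_zero]; exact Set.subset_add_left _ h0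
  | succ n ih =>
    rw [T_succ, T_succ]
    refine (Set.add_subset_add subset_rfl (Set.image_mono ih)).trans ?_
    rw [Set.image_add, add_left_comm, add_right_comm, add_comm (F + C)]
    exact Set.add_subset_add subset_rfl h

lemma T_compact [TopologicalSpace G] [IsTopologicalAddGroup G] (φ : G →+ G) (hφ : Continuous φ) {C : Set G}
    (hC : IsCompact C) (n : ℕ) : IsCompact (T φ C n) := by
  induction n with
  | zero => rw [T_zero]; exact isCompact_singleton
  | succ n ih => rw [T_succ]; exact hC.add (ih.image hφ)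

end algebra

section measure

variable {G : Type*} [AddCommGroup G] [TopologicalSpace G] [IsTopologicalAddGroup G] [MeasurableSpace G]
  [BorelSpace G] (μ : Measure G) [μ.IsAddHaarMeasure]

lemma pack (A W : Set G) (hW : MeasurableSet W) (h0 : μ W ≠ 0) (hfin : μ (A + W) ≠ ∞) :
    ∃ X : Finset G, (X : Set G) ⊆ A ∧ A ⊆ (X : Set G) + (W - W) ∧ X.card * μ W ≤ μ (A + W) := by
  classical
  let P : Finset G → Prop := fun X => (X : Set G) ⊆ A ∧ (X : Set G).PairwiseDisjoint fun x => x +ᵥ W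
  have hP : ∀ X, P X → X.card * μ W ≤ μ (A + W) := by
    rintro X ⟨h1, h2⟩
    have := measure_biUnion_finset (μ := μ) h2 (fun x _ => hW.const_vadd x)
    simp only [measure_vadd, Finset.sum_const, nsmul_eq_mul] at this
    rw [← this]
    refine measure_mono (Set.iUnion₂_subset fun x hx => ?_)
    rintro _ ⟨w, hw, rfl⟩
    exact ⟨x, h1 hx, w, hw, rfl⟩
  obtain ⟨N, hN⟩ := ENNReal.exists_nat_mul_gt h0 hfin
  have hb : ∀ X, P X → X.card ≤ N := by
    intro X hX
    by_contra hc
    have : (N : ℝ≥0∞) * μ W ≤ X.card * μ W := by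
      gcongr
      exact_mod_cast (not_le.1 hc).le
    exact absurd (this.trans (hP X hX)) (not_le.2 hN)
  have hex : ∃ k, ∃ X, P X ∧ N - X.card = k := ⟨_, ∅, ⟨by simp, by simp⟩, rfl⟩
  obtain ⟨X, hX, hk⟩ := Nat.find_spec hex
  refine ⟨X, hX.1, fun a ha => ?_, hP X hX⟩
  by_contra hna
  obtain ⟨w0, hw0⟩ := nonempty_of_measure_ne_zero h0
  have haX : a ∉ X := fun h => hna ⟨a, h, 0, ⟨w0, hw0, w0, hw0, sub_self _⟩, add_zero _⟩
  have hP' : P (insert a X) := by
    refine ⟨by rw [Finset.coe_insert]; exact Set.insert_subset ha hX.1, ?_⟩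
    rw [Finset.coe_insert]
    refine hX.2.insert fun x hx _ => ?_
    rw [Set.disjoint_left]
    rintro _ ⟨w, hw, rfl⟩ ⟨w', hw', e⟩
    refine hna ⟨x, hx, w' - w, ⟨w', hw', w, hw, rfl⟩, ?_⟩
    simp only [vadd_eq_add] at e
    show x + (w' - w) = a
    rw [← add_sub_assoc, e, add_sub_cancel_right]
  have h1 := Nat.find_min' hex ⟨_, hP', rfl⟩
  have h2 := hb _ hP'
  rw [Finset.card_insert_of_notMem haX] at h1 h2
  omega

lemma cover_le (X : Finset G) (B S : Set G) (h : S ⊆ (X : Set G) + B) : μ S ≤ X.card * μ B := by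
  have : S ⊆ ⋃ x ∈ X, x +ᵥ B := by
    intro s hs
    obtain ⟨x, hx, b, hb, rfl⟩ := h hs
    exact Set.mem_biUnion hx ⟨b, hb, rfl⟩
  refine (measure_mono this).trans ((measure_biUnion_finset_le _ _).trans ?_)
  simp [measure_vadd]

end measure

lemma combine {a b p q : ℝ≥0∞} {k : ℕ} (h1 : a ≤ k * p) (h2 : k * q ≤ b) (hq : q ≠ 0) (hq' : q ≠ ∞) :
    a ≤ p / q * b := by
  refine h1.trans (le_trans (le_of_eq ?_) (mul_le_mul_right h2 _))
  rw [mul_left_comm, ENNReal.div_mul_cancel hq hq']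

lemma H_le {G G' : Type*} [AddCommGroup G] [MeasurableSpace G] [AddCommGroup G'] [MeasurableSpace G']
    (μ : Measure G) (ν : Measure G') (φ : G →+ G) (ψ : G' →+ G') (C : Set G) (D : Set G') (c : ℝ≥0∞) (hc : c ≠ ∞)
    (h : ∀ n, μ (T φ C (n + 1)) ≤ c * ν (T ψ D (n + 1))) : H μ φ C ≤ H ν ψ D := by
  refine ExpGrowth.expGrowthSup_le_of_eventually_le (u := fun n => μ (T φ C n)) (v := fun n => ν (T ψ D n)) hc ?_
  filter_upwards [eventually_ge_atTop 1] with n hn
  obtain ⟨m, rfl⟩ := Nat.exists_eq_add_of_le' hn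
  exact h m

theorem result {G : Type*} [AddCommGroup G] [TopologicalSpace G] [IsTopologicalAddGroup G]
    [LocallyCompactSpace G] [T2Space G] [MeasurableSpace G] [BorelSpace G]
    (μ : Measure G) [μ.IsAddHaarMeasure] (φ : G →+ G) (hφ : Continuous φ)
    (K : AddSubgroup G) (hK : DiscreteTopology K ∨ IsClosed (K : Set G)) [CompactSpace (G ⧸ K)]
    (hinv : ∀ x ∈ K, φ x ∈ K) (ν : Measure K) [ν.IsAddHaarMeasure] :
    hA μ φ = hA ν (restr φ K hinv) := by
  classical
  have hclosed : IsClosed (K : Set G) := by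
    rcases hK with h | h
    · exact AddSubgroup.isClosed_of_discrete
    · exact h
  have hcomm : ∀ (x : K), K.subtype (restr φ K hinv x) = φ (K.subtype x) := fun _ => rfl
  have hcont : Continuous (restr φ K hinv) := (hφ.comp continuous_subtype_val).subtype_mk _
  have hemb : Topology.IsClosedEmbedding (K.subtype) := hclosed.isClosedEmbedding_subtypeVal
  obtain ⟨C0, hC0c, hC0⟩ : ∃ C0 : Set G, IsCompact C0 ∧ ∀ z : G, ∃ c ∈ C0, z - c ∈ K := by
    obtain ⟨V, hV, hV0⟩ := exists_compact_mem_nhds (0 : G)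
    obtain ⟨t, ht⟩ := isCompact_univ.elim_finite_subcover
      (fun x : G => (QuotientAddGroup.mk : G → G ⧸ K) '' (x +ᵥ interior V))
      (fun x => QuotientAddGroup.isOpenMap_coe _ (isOpen_interior.vadd x))
      (fun q _ => by
        obtain ⟨x, rfl⟩ := QuotientAddGroup.mk_surjective q
        exact Set.mem_iUnion.2 ⟨x, x, ⟨0, mem_interior_iff_mem_nhds.2 hV0, by simp⟩, rfl⟩)
    refine ⟨(t : Set G) + V, t.finite_toSet.isCompact.add hV, fun z => ?_⟩
    obtain ⟨x, hx, _, ⟨v, hv, rfl⟩, e⟩ := Set.mem_iUnion₂.1 (ht (Set.mem_univ (z : G ⧸ K)))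
    refine ⟨x + v, ⟨x, hx, v, interior_subset hv, rfl⟩, ?_⟩
    have := QuotientAddGroup.eq.1 e
    rwa [neg_add_eq_sub] at this
  apply le_antisymm
  · refine iSup₂_le fun C1 ⟨hC1, hC10⟩ => ?_
    let C := C1 ∪ C0
    have hC : IsCompact C := hC1.union hC0c
    let F : Set K := K.subtype ⁻¹' (C + φ '' C - C0)
    have hF : IsCompact F := by
      refine hemb.isCompact_preimage ?_
      rw [sub_eq_add_neg]; exact (hC.add (hC.image hφ)).add hC0c.neg
    have hcov : C + φ '' C ⊆ K.subtype '' F + C := by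
      intro z hz
      obtain ⟨c, hc, hk⟩ := hC0 z
      exact ⟨z - c, ⟨⟨z - c, hk⟩, ⟨z, hz, c, hc, rfl⟩, rfl⟩, c, Or.inr hc, by simp⟩
    have : LocallyCompactSpace K := hemb.locallyCompactSpace
    obtain ⟨W, hW, hW0⟩ := exists_compact_mem_nhds (0 : K)
    have hD : IsCompact (insert 0 F + W) ∧ insert 0 F + W ∈ 𝓝 (0 : K) :=
      ⟨(hF.insert 0).add hW, mem_of_superset hW0 (Set.subset_add_right _ (Set.mem_insert _ _))⟩
    refine le_iSup₂_of_le _ hD ?_
    have hWp : ν W ≠ 0 := (Measure.measure_pos_of_mem_nhds _ hW0).ne'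
    have hB : IsCompact (K.subtype '' (W - W) + C) := by
      refine IsCompact.add (IsCompact.image ?_ hemb.continuous) hC
      rw [sub_eq_add_neg]; exact hW.add hW.neg
    refine H_le _ _ _ _ _ _ (μ (K.subtype '' (W - W) + C) / ν W)
      (ENNReal.div_ne_top hB.measure_lt_top.ne hWp) fun n => ?_
    obtain ⟨X, -, hX2, hX3⟩ := pack ν (T (restr φ K hinv) F (n + 1)) W hW.measurableSet hWp
      ((T_compact _ hcont hF _).add hW).measure_lt_top.ne
    refine combine (k := X.card) ?_ (hX3.trans (measure_mono ?_)) hWp hW.measure_lt_top.ne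
    · have := cover_le μ (X.image K.subtype) (K.subtype '' (W - W) + C) (T φ C1 (n + 1)) (by
        refine (T_mono φ Set.subset_union_left _).trans
          ((T_cover φ (Or.inl (mem_of_mem_nhds hC10)) hcov _).trans ?_)
        rw [← T_image _ φ _ hcomm, ← add_assoc, Finset.coe_image, ← Set.image_add]
        exact Set.add_subset_add (Set.image_mono hX2) subset_rfl)
      refine this.trans ?_
      gcongr
      exact_mod_cast Finset.card_image_le
    · exact (T_add _ _ (mem_of_mem_nhds hW0) n).trans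
        (T_mono _ (Set.add_subset_add (Set.subset_insert _ _) subset_rfl) _)
  · refine iSup₂_le fun D ⟨hD, hD0⟩ => ?_
    obtain ⟨V, hV, hV0⟩ := exists_compact_mem_nhds (0 : G)
    have hC : IsCompact (K.subtype '' D + V) ∧ K.subtype '' D + V ∈ 𝓝 (0 : G) :=
      ⟨(hD.image hemb.continuous).add hV,
        mem_of_superset hV0 (Set.subset_add_right _ ⟨0, mem_of_mem_nhds hD0, rfl⟩)⟩
    refine le_iSup₂_of_le _ hC ?_
    have hVp : μ V ≠ 0 := (Measure.measure_pos_of_mem_nhds _ hV0).ne'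
    have hB : IsCompact (K.subtype ⁻¹' (V - V)) := by
      refine hemb.isCompact_preimage ?_
      rw [sub_eq_add_neg]; exact hV.add hV.neg
    refine H_le _ _ _ _ _ _ (ν (K.subtype ⁻¹' (V - V)) / μ V)
      (ENNReal.div_ne_top hB.measure_lt_top.ne hVp) fun n => ?_
    obtain ⟨X, hX1, hX2, hX3⟩ := pack μ (T φ (K.subtype '' D) (n + 1)) V hV.measurableSet hVp
      ((T_compact _ hφ (hD.image hemb.continuous) _).add hV).measure_lt_top.ne
    refine combine (k := X.card) ?_ (hX3.trans (measure_mono (T_add _ _ (mem_of_mem_nhds hV0) n))) hVp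
      hV.measure_lt_top.ne
    rw [← T_image _ φ _ hcomm] at hX1 hX2
    have := cover_le ν (X.preimage K.subtype K.subtype_injective.injOn)
      (K.subtype ⁻¹' (V - V)) (T (restr φ K hinv) D (n + 1)) (by
        intro y hy
        obtain ⟨x, hx, z, hz, e⟩ := hX2 ⟨y, hy, rfl⟩
        obtain ⟨x', -, rfl⟩ := hX1 hx
        refine ⟨x', by simpa using hx, y - x', ?_, by simp⟩
        rw [Set.mem_preimage, map_sub, ← e]
        simpa using hz)
    refine this.trans ?_
    gcongr
    rw [Finset.card_preimage]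
    exact_mod_cast Finset.card_filter_le _ _

end Pool.Agent.Results.MP_5d7a45_an.Uniform
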